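import Pool.Agent.Q281.ER.Main

/-!
# Excedance polynomials of the even and of the odd permutations (MP_b94b02_co)

`A_5^+` is not real-rooted, and for every `n ≥ 6` both `A_n^+` and `A_n^-` are real-rooted.
-/

set_option autoImplicit false

namespace Pool.Agent.Results.MP_b94b02_co.ExactRange

open Polynomial

/-- Number of excedances. -/
def exc {n : ℕ} (σ : Equiv.Perm (Fin n)) : ℕ := (Finset.univ.filter (fun i => i < σ i)).card

/-- `A_n^+`: excedance polynomial of the even permutations. -/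
noncomputable def Aplus (n : ℕ) : ℝ[X] :=
  ∑ σ ∈ Finset.univ.filter (fun σ : Equiv.Perm (Fin n) => Equiv.Perm.sign σ = 1), X ^ exc σ

/-- `A_n^-`: excedance polynomial of the odd permutations. -/
noncomputable def Aminus (n : ℕ) : ℝ[X] :=
  ∑ σ ∈ Finset.univ.filter (fun σ : Equiv.Perm (Fin n) => Equiv.Perm.sign σ = -1), X ^ exc σ

/-- All complex roots are real. -/
def RealRooted (p : ℝ[X]) : Prop := ∀ z : ℂ, aeval z p = 0 → z.im = 0

theorem count : ∀ k < 5, (Finset.univ.filter (fun σ : Equiv.Perm (Fin 5) =>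
    Equiv.Perm.sign σ = 1 ∧ exc σ = k)).card = [1, 11, 36, 11, 1].getD k 0 := by
  decide +kernel

theorem exc_lt : ∀ σ : Equiv.Perm (Fin 5), exc σ < 5 := by
  decide +kernel

theorem Aplus_five : Aplus 5 = 1 + 11 * X + 36 * X ^ 2 + 11 * X ^ 3 + X ^ 4 := by
  unfold Aplus
  rw [← Finset.sum_fiberwise_of_maps_to (t := Finset.range 5) (g := exc)
    (fun σ _ => Finset.mem_range.2 (exc_lt σ))]
  have h : ∀ k ∈ Finset.range 5, ∑ σ ∈ (Finset.univ.filter (fun σ : Equiv.Perm (Fin 5) =>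
      Equiv.Perm.sign σ = 1)).filter (fun σ => exc σ = k), (X : ℝ[X]) ^ exc σ =
      (([1, 11, 36, 11, 1].getD k 0 : ℕ) : ℝ[X]) * X ^ k := by
    intro k hk
    rw [Finset.sum_congr rfl (g := fun _ => (X : ℝ[X]) ^ k) (fun σ hσ => by
      rw [(Finset.mem_filter.1 hσ).2]), Finset.sum_const, nsmul_eq_mul, Finset.filter_filter,
      count k (Finset.mem_range.1 hk)]
  rw [Finset.sum_congr rfl h]
  simp [Finset.sum_range_succ]

/-- `A_5^+` has a non-real root. -/
theorem not_realRooted : ¬ RealRooted (Aplus 5) := by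
  intro h
  rw [Aplus_five] at h
  have hdeg : 0 < ((1 + 11 * X + 36 * X ^ 2 + 11 * X ^ 3 + X ^ 4 : ℝ[X]).map
      (algebraMap ℝ ℂ)).degree := by
    have h1 : (1 + 11 * X + 36 * X ^ 2 + 11 * X ^ 3 + X ^ 4 : ℝ[X]).degree = 4 := by
      compute_degree!
    rw [degree_map, h1]
    norm_num
  obtain ⟨z, hz⟩ := Complex.exists_root hdeg
  have hz2 : aeval z (1 + 11 * X + 36 * X ^ 2 + 11 * X ^ 3 + X ^ 4 : ℝ[X]) = 0 := by
    rw [IsRoot.def, eval_map_algebraMap] at hz
    exact hz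
  have him := h z hz2
  have hzr : z = (z.re : ℂ) := Complex.ext rfl (by simp [him])
  rw [hzr] at hz2
  simp only [map_add, map_mul, map_pow, aeval_X, map_one, map_ofNat] at hz2
  have h2 : 1 + 11 * z.re + 36 * z.re ^ 2 + 11 * z.re ^ 3 + z.re ^ 4 = 0 := by
    exact_mod_cast hz2
  have h3 : (z.re ^ 2 + 11 / 2 * z.re + 1) ^ 2 + 15 / 4 * z.re ^ 2 = 0 := by
    linear_combination h2
  have h4 : z.re ^ 2 = 0 := by
    nlinarith [sq_nonneg (z.re ^ 2 + 11 / 2 * z.re + 1), sq_nonneg z.re]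
  have h5 : z.re = 0 := by simpa using h4
  rw [h5] at h2
  norm_num at h2

/-- `A_5^+` is not real-rooted; for every `n ≥ 6` both `A_n^+` and `A_n^-` are real-rooted. -/
theorem result : ¬ RealRooted (Aplus 5) ∧ ∀ n : ℕ, 6 ≤ n → RealRooted (Aplus n) ∧ RealRooted (Aminus n) :=
  ⟨not_realRooted, Q281ER.main⟩

end Pool.Agent.Results.MP_b94b02_co.ExactRange
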